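import Mathlib

/-!
The recursive tree and the bilinear form used for the counterexample.
-/

namespace Pool.Agent.R579.Apep

/-- the nodes -/
inductive Node : Type
  | root : Node
  | child (c c' : Node) (k : ℝ) : Node

namespace Node

/-- depth of a node -/
def depth : Node → ℕ
  | root => 0
  | child c _ _ => depth c + 1

/-- size of a node -/
def size : Node → ℕ
  | root => 0
  | child c c' _ => size c + size c' + 1

/-- `InChain s c`: `s` is `c` or an ancestor of `c`, and `s` is not the root. -/
def InChain (s : Node) : Node → Prop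
  | root => False
  | child c x k => s = child c x k ∨ InChain s c

/-- coupled nodes -/
def coup : Node → Node → Prop
  | root, _ => False
  | child c x k, c' => coup c c' ∨ (InChain (child x c k) c' ∧ ¬ coup c x)

/-- the partner of a node -/
def partner : Node → Node
  | root => root
  | child c x k => child x c k

/-- active nodes -/
def act : Node → Prop
  | root => False
  | child c x _ => ¬ coup c x

/-- the parent of a node -/
def parent : Node → Node
  | root => root
  | child c _ _ => c

theorem partner_partner (s : Node) : partner (partner s) = s := by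
  cases s <;> rfl

theorem size_le_of_inChain {s : Node} : ∀ {c : Node}, InChain s c → size s ≤ size c
  | root, h => h.elim
  | child c x k, h => by
    rcases h with rfl | h
    · exact le_rfl
    · have := size_le_of_inChain h
      simp only [size]
      omega

theorem not_inChain_self (c x : Node) (k : ℝ) : ¬ InChain (child c x k) c := by
  intro h
  have := size_le_of_inChain h
  simp only [size] at this
  omega

theorem inChain_ne_root {s : Node} : ∀ {c : Node}, InChain s c → s ≠ root
  | root, h => h.elim
  | child c x k, h => by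
    rcases h with rfl | h
    · intro h; cases h
    · exact inChain_ne_root h

theorem trichotomy {v w : Node} : ∀ {c : Node}, InChain v c → InChain w c →
    v = w ∨ InChain v (parent w) ∨ InChain w (parent v)
  | root, h, _ => h.elim
  | child c x k, hv, hw => by
    rcases hv with rfl | hv
    · rcases hw with rfl | hw
      · exact Or.inl rfl
      · exact Or.inr (Or.inr hw)
    · rcases hw with rfl | hw
      · exact Or.inr (Or.inl hv)
      · exact trichotomy hv hw

theorem coup_iff {c' : Node} : ∀ {c : Node}, coup c c' ↔
    ∃ a b k, InChain (child a b k) c ∧ InChain (child b a k) c' ∧ ¬ coup a b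
  | root => by
    constructor
    · intro h; exact h.elim
    · rintro ⟨a, b, k, h, _⟩; exact h.elim
  | child c x k => by
    constructor
    · rintro (h | ⟨h1, h2⟩)
      · obtain ⟨a, b, k', h1, h2, h3⟩ := coup_iff.1 h
        exact ⟨a, b, k', Or.inr h1, h2, h3⟩
      · exact ⟨c, x, k, Or.inl rfl, h1, h2⟩
    · rintro ⟨a, b, k', h1, h2, h3⟩
      rcases h1 with h1 | h1
      · cases h1
        exact Or.inr ⟨h2, h3⟩
      · exact Or.inl (coup_iff.2 ⟨a, b, k', h1, h2, h3⟩)

theorem coup_excl {c x c' : Node} {k : ℝ} (h : coup c c') (hv : InChain (child x c k) c')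
    (hn : ¬ coup c x) : False := by
  obtain ⟨a, b, k', h1, h2, h3⟩ := coup_iff.1 h
  rcases trichotomy hv h2 with h4 | h4 | h4
  · cases h4
    exact not_inChain_self _ _ _ h1
  · have h5 := size_le_of_inChain h4
    have h6 := size_le_of_inChain h1
    simp only [size, parent] at h5 h6
    omega
  · exact hn (coup_iff.2 ⟨a, b, k', h1, h4, h3⟩)

theorem coup_child (c x : Node) (k : ℝ) (h : ¬ coup c x) : coup (child c x k) (child x c k) :=
  Or.inr ⟨Or.inl rfl, h⟩

end Node

open Node

/-- the generators of the first kind -/
inductive IsM : Node → (Node →₀ ℝ) → Prop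
  | base : IsM root (Finsupp.single root 1)
  | step (c x : Node) (k : ℝ) (v : Node →₀ ℝ) (ε : ℝ) (h : IsM c v) (hε : ε = 1 ∨ ε = -1) :
      IsM (child c x k) (v + Finsupp.single (child c x k) ε)

/-- the generators of the second kind -/
def IsF (w : Node →₀ ℝ) : Prop :=
  ∃ n : ℕ, (∀ s, w s ≠ 0 → ∃ a b k, s = child a b k ∧ depth b = n) ∧
    ∑ s ∈ w.support, (w s) ^ 2 ≤ 1

/-- all generators -/
def Gen : Set (Node →₀ ℝ) := {v | (∃ c, IsM c v) ∨ IsF v}

theorem IsM.apply {c : Node} {v : Node →₀ ℝ} (h : IsM c v) :
    v root = 1 ∧ (∀ t, InChain t c → v t = 1 ∨ v t = -1) ∧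
      (∀ t, t ≠ root → ¬ InChain t c → v t = 0) := by
  classical
  induction h with
  | base =>
    refine ⟨by simp, fun t ht => ht.elim, fun t ht _ => ?_⟩
    rw [Finsupp.single_apply, if_neg (Ne.symm ht)]
  | step c x k v ε h hε ih =>
    obtain ⟨h1, h2, h3⟩ := ih
    have hne : child c x k ≠ root := by intro h; cases h
    refine ⟨?_, ?_, ?_⟩
    · rw [Finsupp.add_apply, h1, Finsupp.single_apply, if_neg hne, add_zero]
    · rintro t (rfl | ht)
      · rw [Finsupp.add_apply, h3 _ hne (not_inChain_self _ _ _), Finsupp.single_eq_same, zero_add]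
        exact hε
      · have htne : child c x k ≠ t := by
          rintro rfl
          exact not_inChain_self _ _ _ ht
        rw [Finsupp.add_apply, Finsupp.single_apply, if_neg htne, add_zero]
        exact h2 t ht
    · intro t ht hn
      have htne : child c x k ≠ t := by
        rintro rfl
        exact hn (Or.inl rfl)
      rw [Finsupp.add_apply, Finsupp.single_apply, if_neg htne, add_zero]
      exact h3 t ht (fun h => hn (Or.inr h))

theorem IsM.eq_root {v : Node →₀ ℝ} (h : IsM root v) : v = Finsupp.single root 1 := by
  cases h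
  rfl

theorem IsF.sq_le {w : Node →₀ ℝ} (h : IsF w) (s : Node) : (w s) ^ 2 ≤ 1 := by
  classical
  obtain ⟨n, _, h2⟩ := h
  by_cases hs : s ∈ w.support
  · exact (Finset.single_le_sum (f := fun s => (w s) ^ 2) (fun _ _ => sq_nonneg _) hs).trans h2
  · rw [Finsupp.notMem_support_iff] at hs
    rw [hs]
    norm_num

theorem IsF.abs_le {w : Node →₀ ℝ} (h : IsF w) (s : Node) : |w s| ≤ 1 := by
  have := h.sq_le s
  rw [← sq_abs] at this
  nlinarith [abs_nonneg (w s)]

theorem IsF.root_eq {w : Node →₀ ℝ} (h : IsF w) : w root = 0 := by
  obtain ⟨n, h1, _⟩ := h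
  by_contra hne
  obtain ⟨a, b, k, h, _⟩ := h1 _ hne
  cases h

open Classical in
/-- the activity indicator -/
noncomputable def aa (s : Node) : ℝ := if act s then 1 else 0

/-- the bilinear form -/
noncomputable def BB : (Node →₀ ℝ) →ₗ[ℝ] (Node →₀ ℝ) →ₗ[ℝ] ℝ :=
  Finsupp.linearCombination ℝ (fun s => aa s • Finsupp.lapply (partner s))

theorem BB_apply (v w : Node →₀ ℝ) :
    BB v w = ∑ s ∈ v.support, v s * (aa s * w (partner s)) := by
  rw [BB, Finsupp.linearCombination_apply, Finsupp.sum, LinearMap.sum_apply]
  refine Finset.sum_congr rfl (fun s _ => ?_)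
  simp

theorem BB_single (s : Node) (r : ℝ) (w : Node →₀ ℝ) :
    BB (Finsupp.single s r) w = r * (aa s * w (partner s)) := by
  rw [BB, Finsupp.linearCombination_single]
  simp

theorem BB_single_right (s : Node) (r : ℝ) (w : Node →₀ ℝ) :
    BB w (Finsupp.single s r) = w (partner s) * (aa (partner s) * r) := by
  classical
  rw [BB_apply]
  rw [Finset.sum_eq_single (partner s)]
  · rw [partner_partner, Finsupp.single_eq_same]
  · intro t _ hne
    rw [Finsupp.single_apply, if_neg, mul_zero, mul_zero]
    rintro rfl
    exact hne (partner_partner t).symm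
  · intro h
    rw [Finsupp.notMem_support_iff] at h
    rw [h, zero_mul]

theorem aa_root : aa root = 0 := by
  unfold aa
  rw [if_neg]
  exact fun h => h

theorem aa_child (c x : Node) (k : ℝ) (h : ¬ coup c x) : aa (child c x k) = 1 := by
  unfold aa
  rw [if_pos]
  exact h

theorem aa_child' (c x : Node) (k : ℝ) (h : coup c x) : aa (child c x k) = 0 := by
  unfold aa
  rw [if_neg]
  exact fun h' => h' h

theorem aa_nonneg (s : Node) : 0 ≤ aa s := by
  unfold aa
  split_ifs
  · exact zero_le_one
  · exact le_rfl

theorem aa_le (s : Node) : aa s ≤ 1 := by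
  unfold aa
  split_ifs
  · exact le_rfl
  · exact zero_le_one

theorem abs_aa_mul (s : Node) (r : ℝ) : |aa s * r| ≤ |r| := by
  rw [abs_mul, abs_of_nonneg (aa_nonneg s)]
  have := mul_le_mul_of_nonneg_right (aa_le s) (abs_nonneg r)
  linarith

theorem BB_MM {c c' : Node} {v w : Node →₀ ℝ} (hv : IsM c v) (hw : IsM c' w) :
    (coup c c' → |BB v w| = 1) ∧ (¬ coup c c' → BB v w = 0) := by
  obtain ⟨_, hw2, hw3⟩ := hw.apply
  induction hv with
  | base =>
    refine ⟨fun h => h.elim, fun _ => ?_⟩
    rw [BB_single, aa_root]
    ring
  | step c x k v ε h hε ih =>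
    obtain ⟨ih1, ih2⟩ := ih
    have hne : child x c k ≠ root := by intro h; cases h
    have hval : BB (v + Finsupp.single (child c x k) ε) w
        = BB v w + ε * (aa (child c x k) * w (child x c k)) := by
      rw [map_add, LinearMap.add_apply, BB_single]
      rfl
    rw [hval]
    have hεa : |ε| = 1 := by rcases hε with rfl | rfl <;> norm_num
    constructor
    · rintro (hc | ⟨hc1, hc2⟩)
      · -- coup c c'
        have hz : aa (child c x k) * w (child x c k) = 0 := by
          by_cases hcx : coup c x
          · rw [aa_child' _ _ _ hcx, zero_mul]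
          · rw [hw3 _ hne (fun hin => coup_excl hc hin hcx), mul_zero]
        rw [hz, mul_zero, add_zero]
        exact ih1 hc
      · have hnc : ¬ coup c c' := fun hc => coup_excl hc hc1 hc2
        rw [ih2 hnc, zero_add, aa_child _ _ _ hc2, one_mul, abs_mul, hεa, one_mul]
        rcases hw2 _ hc1 with h | h <;> rw [h] <;> norm_num
    · intro hn
      have hnc : ¬ coup c c' := fun hc => hn (Or.inl hc)
      rw [ih2 hnc, zero_add]
      by_cases hcx : coup c x
      · rw [aa_child' _ _ _ hcx, zero_mul, mul_zero]
      · rw [hw3 _ hne (fun hin => hn (Or.inr ⟨hin, hcx⟩)), mul_zero, mul_zero]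

theorem BB_MF {c : Node} {v w : Node →₀ ℝ} (hv : IsM c v) (hw : IsF w) : |BB v w| ≤ 1 := by
  have hw1 := hw.abs_le
  obtain ⟨n, hn, _⟩ := hw
  have key : |BB v w| ≤ 1 ∧ (depth c ≤ n → BB v w = 0) := by
    induction hv with
    | base =>
      rw [BB_single, aa_root]
      norm_num
    | step c x k v ε h hε ih =>
      obtain ⟨ih1, ih2⟩ := ih
      have hval : BB (v + Finsupp.single (child c x k) ε) w
          = BB v w + ε * (aa (child c x k) * w (child x c k)) := by
        rw [map_add, LinearMap.add_apply, BB_single]
        rfl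
      rw [hval]
      have hεa : |ε| = 1 := by rcases hε with rfl | rfl <;> norm_num
      by_cases hd : depth c = n
      · rw [ih2 hd.le, zero_add]
        constructor
        · rw [abs_mul, hεa, one_mul]
          exact (abs_aa_mul _ _).trans (hw1 _)
        · intro h
          simp only [depth] at h
          omega
      · have hz : w (child x c k) = 0 := by
          by_contra hne
          obtain ⟨a, b, k', h1, h2⟩ := hn _ hne
          cases h1
          exact hd h2
        rw [hz, mul_zero, mul_zero, add_zero]
        refine ⟨ih1, fun h => ih2 ?_⟩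
        simp only [depth] at h
        omega
  exact key.1

theorem BB_FM {c : Node} {v w : Node →₀ ℝ} (hv : IsM c v) (hw : IsF w) : |BB w v| ≤ 1 := by
  have hw1 := hw.abs_le
  have hw0 := hw.root_eq
  obtain ⟨n, hn, _⟩ := hw
  have key : |BB w v| ≤ 1 ∧ (depth c ≤ n → BB w v = 0) := by
    induction hv with
    | base =>
      have : BB w (Finsupp.single root 1) = 0 := by
        rw [BB_single_right]
        change w root * _ = 0
        rw [hw0, zero_mul]
      rw [this]
      norm_num
    | step c x k v ε h hε ih =>
      obtain ⟨ih1, ih2⟩ := ih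
      have hval : BB w (v + Finsupp.single (child c x k) ε)
          = BB w v + w (child x c k) * (aa (child x c k) * ε) := by
        rw [map_add, BB_single_right]
        rfl
      rw [hval]
      have hεa : |ε| = 1 := by rcases hε with rfl | rfl <;> norm_num
      by_cases hd : depth c = n
      · rw [ih2 hd.le, zero_add]
        constructor
        · rw [abs_mul]
          have h1 := abs_aa_mul (child x c k) ε
          have h2 := hw1 (child x c k)
          rw [hεa] at h1
          have h3 := mul_le_mul h2 h1 (abs_nonneg _) zero_le_one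
          linarith
        · intro h
          simp only [depth] at h
          omega
      · have hz : w (child x c k) = 0 := by
          by_contra hne
          obtain ⟨a, b, k', h1, h2⟩ := hn _ hne
          cases h1
          exact hd h2
        rw [hz, zero_mul, add_zero]
        refine ⟨ih1, fun h => ih2 ?_⟩
        simp only [depth] at h
        omega
  exact key.1

theorem BB_FF {v w : Node →₀ ℝ} (hv : IsF v) (hw : IsF w) : |BB v w| ≤ 1 := by
  classical
  obtain ⟨_, _, hv2⟩ := hv
  obtain ⟨_, _, hw2⟩ := hw
  rw [BB_apply]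
  have h1 : |∑ s ∈ v.support, v s * (aa s * w (partner s))|
      ≤ ∑ s ∈ v.support, ((v s) ^ 2 + (w (partner s)) ^ 2) / 2 := by
    refine (Finset.abs_sum_le_sum_abs _ _).trans (Finset.sum_le_sum (fun s _ => ?_))
    rw [abs_mul]
    have h2 := abs_aa_mul s (w (partner s))
    have h3 := mul_le_mul_of_nonneg_left h2 (abs_nonneg (v s))
    have h4 := two_mul_le_add_sq |v s| |w (partner s)|
    rw [sq_abs, sq_abs] at h4
    linarith
  have h2 : ∑ s ∈ v.support, (w (partner s)) ^ 2 ≤ ∑ s ∈ w.support, (w s) ^ 2 := by
    rw [← Finset.sum_image (f := fun s => (w s) ^ 2) (s := v.support) (g := partner)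
      (fun a _ b _ hab => by
        have := congrArg partner hab
        rwa [partner_partner, partner_partner] at this)]
    have h3 : ∑ s ∈ w.support, (w s) ^ 2
        = ∑ s ∈ Finset.image partner v.support ∪ w.support, (w s) ^ 2 := by
      refine Finset.sum_subset Finset.subset_union_right (fun s _ hs => ?_)
      rw [Finsupp.notMem_support_iff] at hs
      rw [hs]
      norm_num
    rw [h3]
    exact Finset.sum_le_sum_of_subset_of_nonneg Finset.subset_union_left
      (fun _ _ _ => sq_nonneg _)
  rw [← Finset.sum_div, Finset.sum_add_distrib] at h1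
  linarith

theorem BB_le {v w : Node →₀ ℝ} (hv : v ∈ Gen) (hw : w ∈ Gen) : |BB v w| ≤ 1 := by
  rcases hv with ⟨c, hv⟩ | hv
  · rcases hw with ⟨c', hw⟩ | hw
    · obtain ⟨h1, h2⟩ := BB_MM hv hw
      by_cases h : coup c c'
      · exact (h1 h).le
      · rw [h2 h]
        norm_num
    · exact BB_MF hv hw
  · rcases hw with ⟨c', hw⟩ | hw
    · exact BB_FM hw hv
    · exact BB_FF hv hw

theorem isF_single (a b : Node) (k : ℝ) : IsF (Finsupp.single (child a b k) 1) := by
  classical
  refine ⟨depth b, fun s hs => ?_, ?_⟩
  · rw [Finsupp.single_apply] at hs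
    split_ifs at hs with h
    · exact ⟨a, b, k, h.symm, rfl⟩
    · exact (hs rfl).elim
  · rw [Finsupp.support_single_ne_zero _ one_ne_zero, Finset.sum_singleton,
      Finsupp.single_eq_same]
    norm_num

theorem span_Gen : Submodule.span ℝ Gen = ⊤ := by
  rw [eq_top_iff]
  rintro v -
  induction v using Finsupp.induction_linear with
  | zero => exact Submodule.zero_mem _
  | add f g hf hg => exact Submodule.add_mem _ hf hg
  | single s r =>
    have h1 : Finsupp.single s r = r • Finsupp.single s (1 : ℝ) := by
      rw [Finsupp.smul_single, smul_eq_mul, mul_one]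
    rw [h1]
    refine Submodule.smul_mem _ _ (Submodule.subset_span ?_)
    cases s with
    | root => exact Or.inl ⟨_, IsM.base⟩
    | child a b k => exact Or.inr (isF_single a b k)

theorem abs_apply_le {v : Node →₀ ℝ} (hv : v ∈ Gen) (s : Node) : |v s| ≤ 1 := by
  rcases hv with ⟨c, hv⟩ | hv
  · obtain ⟨h1, h2, h3⟩ := hv.apply
    by_cases hs : s = root
    · rw [hs, h1, abs_one]
    · by_cases hin : InChain s c
      · rcases h2 s hin with h | h <;> rw [h] <;> norm_num
      · rw [h3 s hs hin]
        norm_num
  · exact hv.abs_le s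

end Pool.Agent.R579.Apep
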