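import Mathlib

/-!
Definitions for almost preserved extreme points (APEP) and projective tensor products.
-/

set_option maxSynthPendingDepth 3

namespace Pool.Agent.R579.Apep

open Metric Set

section
variable {X : Type*} [NormedAddCommGroup X] [NormedSpace ℝ X]

/-- The slice `S(C, f, α) = {x ∈ C : f x > sup_C f - α}`. -/
def slice (C : Set X) (f : StrongDual ℝ X) (α : ℝ) : Set X :=
  {x | x ∈ C ∧ sSup (f '' C) - α < f x}

/-- `W` is open for the weak topology of the Banach space `X`
(`WeakSpace ℝ X` is Mathlib's copy of `X` with its weak topology). -/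
def WeaklyOpen (W : Set X) : Prop := IsOpen (toWeakSpace ℝ X '' W)

/-- `x₀` is an almost preserved extreme point of `C`: `x₀ ∈ C` and every relatively weakly open
subset `C ∩ W` of `C` containing `x₀` contains a non-empty slice of `C`. -/
def IsAPEP (C : Set X) (x₀ : X) : Prop :=
  x₀ ∈ C ∧ ∀ W : Set X, WeaklyOpen W → x₀ ∈ C ∩ W →
    ∃ (f : StrongDual ℝ X) (α : ℝ), 0 < α ∧ (slice C f α).Nonempty ∧ slice C f α ⊆ C ∩ W

end

/-- `Z`, with the bounded bilinear map `τ`, is the projective tensor product of `X` and `Y`: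
`‖τ x y‖ ≤ ‖x‖ ‖y‖`, the span of the elementary tensors is dense in `Z`, and every bounded
operator `T : X → Y*` is `x ↦ y ↦ F (τ x y)` for some `F ∈ Z*` with `‖F‖ ≤ ‖T‖`.
(By the Hahn-Banach theorem these properties determine the Banach space `Z` up to isometric
isomorphism; they say that `Z* = L(X, Y*)` isometrically.) -/
structure IsProjTensor {X Y Z : Type*} [NormedAddCommGroup X] [NormedSpace ℝ X]
    [NormedAddCommGroup Y] [NormedSpace ℝ Y] [NormedAddCommGroup Z] [NormedSpace ℝ Z]
    (τ : X →L[ℝ] Y →L[ℝ] Z) : Prop where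
  norm_le : ∀ x y, ‖τ x y‖ ≤ ‖x‖ * ‖y‖
  dense_span : Dense (Submodule.span ℝ {z : Z | ∃ x y, τ x y = z} : Set Z)
  lift : ∀ T : X →L[ℝ] StrongDual ℝ Y, ∃ F : StrongDual ℝ Z,
    (∀ x y, F (τ x y) = T x y) ∧ ‖F‖ ≤ ‖T‖

/-- The closed convex hull of `{x ⊗ y : x ∈ C, y ∈ D}`. -/
def tensorHull {X Y Z : Type*} [NormedAddCommGroup X] [NormedSpace ℝ X]
    [NormedAddCommGroup Y] [NormedSpace ℝ Y] [NormedAddCommGroup Z] [NormedSpace ℝ Z]
    (τ : X →L[ℝ] Y →L[ℝ] Z) (C : Set X) (D : Set Y) : Set Z :=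
  closure (convexHull ℝ {z : Z | ∃ x ∈ C, ∃ y ∈ D, τ x y = z})

/-- The evaluation functional `T ↦ T x y`. -/
noncomputable def evT {X Y : Type} [NormedAddCommGroup X] [NormedSpace ℝ X]
    [NormedAddCommGroup Y] [NormedSpace ℝ Y] (x : X) (y : Y) :
    StrongDual ℝ (X →L[ℝ] StrongDual ℝ Y) :=
  LinearMap.mkContinuous
      { toFun := fun T : X →L[ℝ] StrongDual ℝ Y => T x y
        map_add' := fun S T => by simp
        map_smul' := fun c T => by simp } (‖x‖ * ‖y‖) (fun T => by
          have h1 : ‖T x y‖ ≤ ‖T x‖ * ‖y‖ := (T x).le_opNorm y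
          have h2 : ‖T x‖ ≤ ‖T‖ * ‖x‖ := T.le_opNorm x
          have h3 : ‖T x‖ * ‖y‖ ≤ ‖T‖ * ‖x‖ * ‖y‖ := mul_le_mul_of_nonneg_right h2 (norm_nonneg y)
          simp only [LinearMap.coe_mk, AddHom.coe_mk]
          linarith)

/-- The span of the evaluation functionals. -/
noncomputable def tSpan (X Y : Type) [NormedAddCommGroup X] [NormedSpace ℝ X]
    [NormedAddCommGroup Y] [NormedSpace ℝ Y] :
    Submodule ℝ (StrongDual ℝ (X →L[ℝ] StrongDual ℝ Y)) :=
  Submodule.span ℝ {z | ∃ (x : X) (y : Y), evT x y = z}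

/-- The concrete projective tensor product: the closed span of the evaluation functionals. -/
def PT (X Y : Type) [NormedAddCommGroup X] [NormedSpace ℝ X]
    [NormedAddCommGroup Y] [NormedSpace ℝ Y] : Type := (tSpan X Y).topologicalClosure

section
variable (X Y : Type) [NormedAddCommGroup X] [NormedSpace ℝ X]
    [NormedAddCommGroup Y] [NormedSpace ℝ Y]

noncomputable instance : NormedAddCommGroup (PT X Y) :=
  inferInstanceAs (NormedAddCommGroup ((tSpan X Y).topologicalClosure))

noncomputable instance : NormedSpace ℝ (PT X Y) :=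
  inferInstanceAs (NormedSpace ℝ ((tSpan X Y).topologicalClosure))

instance : CompleteSpace (PT X Y) :=
  inferInstanceAs (CompleteSpace ((tSpan X Y).topologicalClosure))

end

section
variable {X Y : Type} [NormedAddCommGroup X] [NormedSpace ℝ X]
    [NormedAddCommGroup Y] [NormedSpace ℝ Y]

theorem evT_apply (x : X) (y : Y) (T : X →L[ℝ] StrongDual ℝ Y) : evT x y T = T x y := rfl

theorem norm_evT_le (x : X) (y : Y) : ‖evT x y‖ ≤ ‖x‖ * ‖y‖ :=
  LinearMap.mkContinuous_norm_le _ (by positivity) _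

theorem evT_mem (x : X) (y : Y) : evT x y ∈ (tSpan X Y).topologicalClosure :=
  (tSpan X Y).le_topologicalClosure (Submodule.subset_span ⟨x, y, rfl⟩)

/-- The elementary tensor. -/
noncomputable def tm (x : X) (y : Y) : PT X Y := ⟨evT x y, evT_mem x y⟩

theorem norm_tm_le (x : X) (y : Y) : ‖tm x y‖ ≤ ‖x‖ * ‖y‖ := norm_evT_le x y

theorem PT.ext' {a b : PT X Y} (h : ∀ T : X →L[ℝ] StrongDual ℝ Y, a.1 T = b.1 T) : a = b :=
  Subtype.ext (ContinuousLinearMap.ext h)

/-- The bilinear map `(x, y) ↦ x ⊗ y`. -/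
noncomputable def tmL : X →ₗ[ℝ] Y →ₗ[ℝ] PT X Y :=
  LinearMap.mk₂ ℝ tm
      (fun x x' y => PT.ext' (fun T => by
        change T (x + x') y = T x y + T x' y
        simp))
      (fun c x y => PT.ext' (fun T => by
        change T (c • x) y = c • T x y
        simp))
      (fun x y y' => PT.ext' (fun T => by
        change T x (y + y') = T x y + T x y'
        simp))
      (fun c x y => PT.ext' (fun T => by
        change T x (c • y) = c • T x y
        simp))

/-- The bounded bilinear map `(x, y) ↦ x ⊗ y`. -/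
noncomputable def tau : X →L[ℝ] Y →L[ℝ] PT X Y :=
  LinearMap.mkContinuous₂ tmL 1 (fun x y => by
    rw [one_mul]
    exact norm_tm_le x y)

theorem tau_apply (x : X) (y : Y) : tau x y = tm x y := rfl

theorem isProjTensor_tau : IsProjTensor (tau : X →L[ℝ] Y →L[ℝ] PT X Y) := by
  refine ⟨?_, ?_, ?_⟩
  · intro x y
    exact norm_tm_le x y
  · -- density
    intro z
    rw [Metric.mem_closure_iff]
    intro ε hε
    have hz : z.1 ∈ closure (tSpan X Y : Set (StrongDual ℝ (X →L[ℝ] StrongDual ℝ Y))) := z.2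
    rw [Metric.mem_closure_iff] at hz
    obtain ⟨w, hw, hwd⟩ := hz ε hε
    have hmap : ∀ w ∈ tSpan X Y,
        ∃ w' ∈ (Submodule.span ℝ {z : PT X Y | ∃ x y, tau x y = z}), w'.1 = w := by
      intro w hw
      induction hw using Submodule.span_induction with
      | mem w h =>
        obtain ⟨x, y, rfl⟩ := h
        exact ⟨tau x y, Submodule.subset_span ⟨x, y, rfl⟩, rfl⟩
      | zero => exact ⟨0, Submodule.zero_mem _, rfl⟩
      | add a b _ _ ha hb =>
        obtain ⟨a', ha', rfl⟩ := ha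
        obtain ⟨b', hb', rfl⟩ := hb
        exact ⟨a' + b', Submodule.add_mem _ ha' hb', rfl⟩
      | smul c a _ ha =>
        obtain ⟨a', ha', rfl⟩ := ha
        exact ⟨c • a', Submodule.smul_mem _ c ha', rfl⟩
    obtain ⟨w', hw', rfl⟩ := hmap w hw
    exact ⟨w', hw', hwd⟩
  · intro T
    refine ⟨LinearMap.mkContinuous
      { toFun := fun z : PT X Y => z.1 T
        map_add' := fun a b => rfl
        map_smul' := fun c a => rfl } ‖T‖ (fun z => ?_), ?_, ?_⟩
    · simp only [LinearMap.coe_mk, AddHom.coe_mk]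
      have := (z.1).le_opNorm T
      rw [mul_comm]
      exact this
    · intro x y
      rfl
    · exact LinearMap.mkContinuous_norm_le _ (norm_nonneg _) _

end

/-- Projective tensor products exist. -/
theorem exists_projTensor (X Y : Type) [NormedAddCommGroup X] [NormedSpace ℝ X]
    [NormedAddCommGroup Y] [NormedSpace ℝ Y] :
    ∃ (Z : Type) (_ : NormedAddCommGroup Z) (_ : NormedSpace ℝ Z) (_ : CompleteSpace Z)
      (τ : X →L[ℝ] Y →L[ℝ] Z), IsProjTensor τ :=
  ⟨PT X Y, inferInstance, inferInstance, inferInstance, tau, isProjTensor_tau⟩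

end Pool.Agent.R579.Apep
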