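import Mathlib

/-!
Atomic Banach spaces: given a vector space `V` spanned by a set `G`, the completion of `V` under
the norm whose unit ball is the absolutely convex hull of `G`.
-/

set_option maxSynthPendingDepth 3

namespace Pool.Agent.R579.Apep

open Metric Set
open scoped ENNReal

section Construct

variable {V : Type} [AddCommGroup V] [Module ℝ V]

/-- linear functionals bounded by one on the generators -/
def Phi (G : Set V) : Type := {φ : V →ₗ[ℝ] ℝ // ∀ g ∈ G, |φ g| ≤ 1}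

theorem phi_bdd {G : Set V} (hG : Submodule.span ℝ G = ⊤) (v : V) :
    ∃ C, ∀ φ : Phi G, |φ.1 v| ≤ C := by
  have hv : v ∈ Submodule.span ℝ G := by rw [hG]; trivial
  induction hv using Submodule.span_induction with
  | mem x h => exact ⟨1, fun φ => φ.2 x h⟩
  | zero => exact ⟨0, fun φ => by simp⟩
  | add x y _ _ hx hy =>
    obtain ⟨C, hC⟩ := hx
    obtain ⟨D, hD⟩ := hy
    refine ⟨C + D, fun φ => ?_⟩
    rw [map_add]
    exact (abs_add_le _ _).trans (add_le_add (hC φ) (hD φ))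
  | smul a x _ hx =>
    obtain ⟨C, hC⟩ := hx
    refine ⟨|a| * C, fun φ => ?_⟩
    rw [map_smul, smul_eq_mul, abs_mul]
    exact mul_le_mul_of_nonneg_left (hC φ) (abs_nonneg a)

/-- The map of `V` into `ℓ^∞(Phi G)`. -/
noncomputable def iota0 {G : Set V} (hG : Submodule.span ℝ G = ⊤) :
    V →ₗ[ℝ] lp (fun _ : Phi G => ℝ) ∞ where
  toFun v := ⟨fun φ => φ.1 v, by
    apply memℓp_infty
    obtain ⟨C, hC⟩ := phi_bdd hG v
    refine ⟨C, ?_⟩
    rintro _ ⟨φ, rfl⟩
    exact hC φ⟩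
  map_add' v w := by
    apply Subtype.ext
    funext φ
    exact map_add φ.1 v w
  map_smul' c v := by
    apply Subtype.ext
    funext φ
    exact map_smul φ.1 c v

end Construct

/-- `X` is the atomic space of `(V, G)`. -/
structure Atomic {V : Type} [AddCommGroup V] [Module ℝ V] (G : Set V)
    {X : Type} [NormedAddCommGroup X] [NormedSpace ℝ X] (ι : V →ₗ[ℝ] X) : Prop where
  dense : DenseRange ι
  le_of : ∀ v C, 0 ≤ C → (∀ φ : V →ₗ[ℝ] ℝ, (∀ g ∈ G, |φ g| ≤ 1) → |φ v| ≤ C) → ‖ι v‖ ≤ C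
  dual : ∀ φ : V →ₗ[ℝ] ℝ, (∀ g ∈ G, |φ g| ≤ 1) → ∀ v, |φ v| ≤ ‖ι v‖

theorem exists_atomic {V : Type} [AddCommGroup V] [Module ℝ V] {G : Set V}
    (hG : Submodule.span ℝ G = ⊤) :
    ∃ (X : Type) (_ : NormedAddCommGroup X) (_ : NormedSpace ℝ X) (_ : CompleteSpace X)
      (ι : V →ₗ[ℝ] X), Atomic G ι := by
  let S := (LinearMap.range (iota0 hG)).topologicalClosure
  have hm : ∀ v, iota0 hG v ∈ S := fun v =>
    (LinearMap.range (iota0 hG)).le_topologicalClosure ⟨v, rfl⟩
  let ι : V →ₗ[ℝ] S := LinearMap.codRestrict S (iota0 hG) hm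
  have hS : CompleteSpace S := inferInstance
  refine ⟨S, inferInstance, inferInstance, hS, ι, ⟨?_, ?_, ?_⟩⟩
  · intro z
    rw [Metric.mem_closure_iff]
    intro ε hε
    have hz : z.1 ∈ closure (LinearMap.range (iota0 hG) : Set _) := z.2
    rw [Metric.mem_closure_iff] at hz
    obtain ⟨w, ⟨v, rfl⟩, hwd⟩ := hz ε hε
    exact ⟨ι v, ⟨v, rfl⟩, hwd⟩
  · intro v C hC h
    change ‖iota0 hG v‖ ≤ C
    refine lp.norm_le_of_forall_le hC (fun φ => ?_)
    exact h φ.1 φ.2
  · intro φ hφ v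
    change |φ v| ≤ ‖iota0 hG v‖
    exact lp.norm_apply_le_norm ENNReal.top_ne_zero (iota0 hG v) (⟨φ, hφ⟩ : Phi G)

section Use

variable {V : Type} [AddCommGroup V] [Module ℝ V] {G : Set V}
  {X : Type} [NormedAddCommGroup X] [NormedSpace ℝ X] {ι : V →ₗ[ℝ] X}

theorem Atomic.norm_gen (h : Atomic G ι) {g : V} (hg : g ∈ G) : ‖ι g‖ ≤ 1 :=
  h.le_of g 1 zero_le_one (fun _ hφ => hφ g hg)

/-- A linear functional bounded by `C` on the generators is bounded by `C` times the norm. -/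
theorem Atomic.dual' (h : Atomic G ι) (φ : V →ₗ[ℝ] ℝ) {C : ℝ} (hC : 0 ≤ C)
    (hφ : ∀ g ∈ G, |φ g| ≤ C) (v : V) : |φ v| ≤ C * ‖ι v‖ := by
  rcases hC.eq_or_lt with rfl | hpos
  · -- all multiples of φ are in Phi
    rw [zero_mul]
    by_contra hne
    push Not at hne
    have hs : ∀ n : ℝ, |n * φ v| ≤ ‖ι v‖ := by
      intro n
      have := h.dual (n • φ) (fun g hg => by
        have h0 : |φ g| = 0 := le_antisymm (hφ g hg) (abs_nonneg _)
        rw [LinearMap.smul_apply, smul_eq_mul, abs_mul, h0, mul_zero]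
        exact zero_le_one) v
      rwa [LinearMap.smul_apply, smul_eq_mul] at this
    have h1 := hs ((‖ι v‖ + 1) / |φ v|)
    rw [abs_mul, abs_div, abs_abs, div_mul_cancel₀ _ hne.ne',
      abs_of_pos (by positivity)] at h1
    linarith
  · have := h.dual (C⁻¹ • φ) (fun g hg => by
      rw [LinearMap.smul_apply, smul_eq_mul, abs_mul, abs_of_pos (inv_pos.2 hpos)]
      rw [inv_mul_le_iff₀ hpos, mul_one]
      exact hφ g hg) v
    rw [LinearMap.smul_apply, smul_eq_mul, abs_mul, abs_of_pos (inv_pos.2 hpos),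
      inv_mul_le_iff₀ hpos] at this
    exact this

theorem Atomic.exists_functional (h : Atomic G ι) (φ : V →ₗ[ℝ] ℝ) {C : ℝ} (hC : 0 ≤ C)
    (hφ : ∀ g ∈ G, |φ g| ≤ C) : ∃ F : StrongDual ℝ X, (∀ v, F (ι v) = φ v) ∧ ‖F‖ ≤ C := by
  have hb := h.dual' φ hC hφ
  refine ⟨φ.extendOfNorm ι, fun v => ?_, ?_⟩
  · exact LinearMap.extendOfNorm_eq h.dense ⟨C, hb⟩ v
  · exact LinearMap.opNorm_extendOfNorm_le h.dense hC hb

/-- Bilinear forms bounded by one on the generators extend. -/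
theorem Atomic.exists_bilin (h : Atomic G ι) (B : V →ₗ[ℝ] V →ₗ[ℝ] ℝ)
    (hspan : Submodule.span ℝ G = ⊤)
    (hB : ∀ g ∈ G, ∀ g' ∈ G, |B g g'| ≤ 1) :
    ∃ T : X →L[ℝ] StrongDual ℝ X, (∀ v w, T (ι v) (ι w) = B v w) ∧ ‖T‖ ≤ 1 := by
  have h1 : ∀ g ∈ G, ∀ w, |B g w| ≤ ‖ι w‖ := fun g hg w => h.dual (B g) (hB g hg) w
  have h2 : ∀ v w, |B v w| ≤ ‖ι w‖ * ‖ι v‖ := by
    intro v w
    have := h.dual' (B.flip w) (norm_nonneg (ι w)) (fun g hg => by
      simpa using h1 g hg w) v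
    simpa using this
  let E1 : V → StrongDual ℝ X := fun v => (B v).extendOfNorm ι
  have hE1 : ∀ v w, E1 v (ι w) = B v w := fun v w =>
    LinearMap.extendOfNorm_eq h.dense ⟨‖ι v‖, fun w => by
      rw [Real.norm_eq_abs, mul_comm]
      exact h2 v w⟩ w
  have hE1n : ∀ v, ‖E1 v‖ ≤ 1 * ‖ι v‖ := fun v => by
    rw [one_mul]
    exact LinearMap.opNorm_extendOfNorm_le h.dense (norm_nonneg _) (fun w => by
      rw [Real.norm_eq_abs, mul_comm]
      exact h2 v w)
  have hext : ∀ F F' : StrongDual ℝ X, (∀ w, F (ι w) = F' (ι w)) → F = F' := by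
    intro F F' hh
    apply ContinuousLinearMap.coeFn_injective
    exact h.dense.equalizer F.continuous F'.continuous (funext hh)
  let E : V →ₗ[ℝ] StrongDual ℝ X :=
    { toFun := E1
      map_add' := fun v v' => hext _ _ (fun w => by
        rw [ContinuousLinearMap.add_apply, hE1, hE1, hE1, map_add, LinearMap.add_apply])
      map_smul' := fun c v => hext _ _ (fun w => by
        rw [RingHom.id_apply, ContinuousLinearMap.smul_apply, hE1, hE1, map_smul,
          LinearMap.smul_apply]) }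
  refine ⟨E.extendOfNorm ι, fun v w => ?_, ?_⟩
  · rw [LinearMap.extendOfNorm_eq h.dense ⟨1, hE1n⟩ v]
    exact hE1 v w
  · exact LinearMap.opNorm_extendOfNorm_le h.dense zero_le_one hE1n

/-- The unit ball is the closed convex hull of the generators and their negatives. -/
theorem Atomic.ball_subset (h : Atomic G ι) (hne : G.Nonempty) {K : Set X}
    (hKc : Convex ℝ K) (hKcl : IsClosed K) (hK : ∀ g ∈ G, ι g ∈ K) (hK' : ∀ g ∈ G, -ι g ∈ K) :
    closedBall (0 : X) 1 ⊆ K := by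
  intro x hx
  by_contra hxK
  obtain ⟨f, u, hfu, hux⟩ := geometric_hahn_banach_closed_point hKc hKcl hxK
  obtain ⟨g0, hg0⟩ := hne
  have hupos : 0 < u := by
    have h1 := hfu _ (hK g0 hg0)
    have h2 := hfu _ (hK' g0 hg0)
    rw [map_neg] at h2
    linarith
  have hφ : ∀ g ∈ G, |(f.toLinearMap.comp ι) g| ≤ u := by
    intro g hg
    have h1 := hfu _ (hK g hg)
    have h2 := hfu _ (hK' g hg)
    rw [map_neg] at h2
    rw [LinearMap.comp_apply, abs_le]
    constructor
    · change -u ≤ f (ι g)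
      linarith
    · change f (ι g) ≤ u
      linarith
  obtain ⟨F, hF, hFn⟩ := h.exists_functional (f.toLinearMap.comp ι) hupos.le hφ
  have hFf : F = f := by
    apply ContinuousLinearMap.coeFn_injective
    exact h.dense.equalizer F.continuous f.continuous (funext hF)
  have h3 : f x ≤ u := by
    have h4 := f.le_opNorm x
    rw [← hFf] at h4
    have h5 : ‖x‖ ≤ 1 := by simpa using hx
    have h6 : ‖F‖ * ‖x‖ ≤ u * 1 := mul_le_mul hFn h5 (norm_nonneg _) hupos.le
    rw [← hFf]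
    have := le_abs_self (F x)
    rw [Real.norm_eq_abs] at h4
    linarith
  linarith

end Use

end Pool.Agent.R579.Apep
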