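import Pool.Agent.R579.Apep.Defs
import Pool.Agent.R579.Apep.Space
import Pool.Agent.R579.Apep.Comb

/-!
The base point is an APEP of the unit ball, its tensor square is not.
-/

set_option maxSynthPendingDepth 3

namespace Pool.Agent.R579.Apep

open Metric Set Node

section Weak

variable {X : Type*} [NormedAddCommGroup X] [NormedSpace ℝ X]

theorem exists_pos_forall {ι : Type*} (I : Finset ι) (P : ι → ℝ → Prop)
    (h : ∀ i ∈ I, ∃ a > 0, ∀ b, 0 < b → b ≤ a → P i b) :
    ∃ a > 0, ∀ i ∈ I, P i a := by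
  classical
  have key : ∃ a > 0, ∀ i ∈ I, ∀ b, 0 < b → b ≤ a → P i b := by
    induction I using Finset.induction_on with
    | empty => exact ⟨1, one_pos, fun i hi => absurd hi (Finset.notMem_empty i)⟩
    | insert j I hj ih =>
      obtain ⟨a, ha, h1⟩ := ih (fun i hi => h i (Finset.mem_insert_of_mem hi))
      obtain ⟨a', ha', h2⟩ := h j (Finset.mem_insert_self j I)
      refine ⟨min a a', lt_min ha ha', fun i hi b hb hb' => ?_⟩
      rcases Finset.mem_insert.1 hi with rfl | hi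
      · exact h2 b hb (hb'.trans (min_le_right _ _))
      · exact h1 i hi b hb (hb'.trans (min_le_left _ _))
  obtain ⟨a, ha, h1⟩ := key
  exact ⟨a, ha, fun i hi => h1 i hi a ha le_rfl⟩

theorem WeaklyOpen.exists_basic {W : Set X} (hW : WeaklyOpen W) {x₀ : X} (hx : x₀ ∈ W) :
    ∃ (I : Finset (StrongDual ℝ X)) (δ : ℝ), 0 < δ ∧
      ∀ x, (∀ F ∈ I, |F x - F x₀| ≤ δ) → x ∈ W := by
  obtain ⟨O, hO, hO'⟩ := isOpen_induced_iff.1 hW
  have hmem : ∀ x : X, x ∈ W ↔ (fun F : StrongDual ℝ X => F x) ∈ O := by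
    intro x
    have h1 : toWeakSpace ℝ X x ∈ toWeakSpace ℝ X '' W ↔ x ∈ W :=
      (toWeakSpace ℝ X).injective.mem_set_image
    rw [← h1, ← hO']
    rfl
  obtain ⟨I, u, hu, hsub⟩ := isOpen_pi_iff.1 hO _ ((hmem x₀).1 hx)
  obtain ⟨δ, hδ, h2⟩ := exists_pos_forall I
    (fun F δ => ∀ y : ℝ, |y - F x₀| ≤ δ → y ∈ u F) (fun F hF => by
      obtain ⟨hopen, hin⟩ := hu F hF
      obtain ⟨ε, hε, hball⟩ := Metric.isOpen_iff.1 hopen _ hin
      refine ⟨ε / 2, by positivity, fun b hb hb' y hy => hball ?_⟩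
      rw [Metric.mem_ball, Real.dist_eq]
      linarith)
  refine ⟨I, δ, hδ, fun x hx => (hmem x).2 (hsub ?_)⟩
  intro F hF
  exact h2 F hF _ (hx F hF)

theorem weaklyOpen_two (E T : StrongDual ℝ X) :
    WeaklyOpen {z : X | |E z - 1| < 1 / 2 ∧ |T z| < 1 / 2} := by
  have hc : ∀ F : StrongDual ℝ X,
      Continuous fun z : WeakSpace ℝ X => F ((toWeakSpace ℝ X).symm z) := fun F =>
    WeakBilin.eval_continuous (topDualPairing ℝ X).flip F
  have : (toWeakSpace ℝ X) '' {z : X | |E z - 1| < 1 / 2 ∧ |T z| < 1 / 2}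
      = {z : WeakSpace ℝ X | |E ((toWeakSpace ℝ X).symm z) - 1| < 1 / 2} ∩
        {z : WeakSpace ℝ X | |T ((toWeakSpace ℝ X).symm z)| < 1 / 2} := by
    ext z
    constructor
    · rintro ⟨x, ⟨h1, h2⟩, rfl⟩
      exact ⟨h1, h2⟩
    · rintro ⟨h1, h2⟩
      exact ⟨(toWeakSpace ℝ X).symm z, ⟨h1, h2⟩, (toWeakSpace ℝ X).apply_symm_apply z⟩
  unfold WeaklyOpen
  rw [this]
  exact (isOpen_lt (((hc E).sub continuous_const).abs) continuous_const).inter
    (isOpen_lt ((hc T).abs) continuous_const)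

end Weak

section Countable

variable {X : Type} [NormedAddCommGroup X] [NormedSpace ℝ X] {ι : (Node →₀ ℝ) →ₗ[ℝ] X}

/-- nodes whose label has depth `n` -/
def Lev (n : ℕ) : Set Node := {s | ∃ a b k, s = child a b k ∧ depth b = n}

theorem sum_sq_le (h : Atomic Gen ι) (F : StrongDual ℝ X) (n : ℕ) (T : Finset Node)
    (hT : ∀ t ∈ T, t ∈ Lev n) :
    ∑ t ∈ T, (F (ι (Finsupp.single t 1))) ^ 2 ≤ ‖F‖ ^ 2 := by
  classical
  set p : Node → ℝ := fun t => F (ι (Finsupp.single t 1)) with hp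
  set q : ℝ := ∑ t ∈ T, (p t) ^ 2 with hq
  have hq0 : 0 ≤ q := Finset.sum_nonneg (fun _ _ => sq_nonneg _)
  rcases hq0.eq_or_lt with h0 | hpos
  · rw [← h0]
    positivity
  have hsq : 0 < Real.sqrt q := Real.sqrt_pos.2 hpos
  let w : Node →₀ ℝ := Finsupp.indicator T (fun t _ => p t / Real.sqrt q)
  have hwv : ∀ t, w t = if t ∈ T then p t / Real.sqrt q else 0 := fun t => by
    simp only [w, Finsupp.indicator_apply]
    split_ifs <;> rfl
  have hws : w.support ⊆ T := Finsupp.support_indicator_subset _ _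
  have hwF : IsF w := by
    refine ⟨n, fun s hs => ?_, ?_⟩
    · have : s ∈ T := hws (Finsupp.mem_support_iff.2 hs)
      exact hT s this
    · have h1 : ∑ s ∈ w.support, (w s) ^ 2 = ∑ s ∈ T, (w s) ^ 2 := by
        refine Finset.sum_subset hws (fun s _ hs => ?_)
        rw [Finsupp.notMem_support_iff] at hs
        rw [hs]
        norm_num
      rw [h1]
      have h2 : ∑ s ∈ T, (w s) ^ 2 = ∑ s ∈ T, (p s) ^ 2 / q := by
        refine Finset.sum_congr rfl (fun s hs => ?_)
        rw [hwv, if_pos hs, div_pow, Real.sq_sqrt hq0]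
      rw [h2, ← Finset.sum_div, ← hq, div_self hpos.ne']
  have hwsum : w = ∑ t ∈ T, (p t / Real.sqrt q) • Finsupp.single t (1 : ℝ) := by
    ext s
    rw [hwv, Finsupp.finsetSum_apply]
    by_cases hs : s ∈ T
    · rw [if_pos hs, Finset.sum_eq_single s]
      · simp
      · intro t _ hne
        simp [hne]
      · intro hn
        exact (hn hs).elim
    · rw [if_neg hs]
      symm
      refine Finset.sum_eq_zero (fun t ht => ?_)
      have : t ≠ s := by
        rintro rfl
        exact hs ht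
      simp [this]
  have hFw : F (ι w) = Real.sqrt q := by
    rw [hwsum, map_sum, map_sum]
    have h1 : ∀ t ∈ T, F (ι ((p t / Real.sqrt q) • Finsupp.single t (1 : ℝ)))
        = (p t) ^ 2 / Real.sqrt q := by
      intro t _
      rw [map_smul, map_smul, smul_eq_mul]
      change p t / Real.sqrt q * p t = _
      ring
    rw [Finset.sum_congr rfl h1, ← Finset.sum_div, ← hq]
    rw [div_eq_iff hsq.ne']
    exact (Real.mul_self_sqrt hq0).symm
  have h3 : |F (ι w)| ≤ ‖F‖ := by
    have h4 := F.le_opNorm (ι w)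
    have h5 : ‖ι w‖ ≤ 1 := h.norm_gen (Or.inr hwF)
    have h6 := mul_le_mul_of_nonneg_left h5 (norm_nonneg F)
    rw [Real.norm_eq_abs] at h4
    linarith
  rw [hFw, abs_of_pos hsq] at h3
  have h7 : q = Real.sqrt q ^ 2 := (Real.sq_sqrt hq0).symm
  rw [h7]
  exact pow_le_pow_left₀ hsq.le h3 2

theorem countable_supp (h : Atomic Gen ι) (F : StrongDual ℝ X) :
    {s : Node | s ≠ root ∧ F (ι (Finsupp.single s 1)) ≠ 0}.Countable := by
  classical
  have h1 : ∀ n, {s : Node | s ∈ Lev n ∧ F (ι (Finsupp.single s 1)) ≠ 0}.Countable := by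
    intro n
    let g : Node → ℝ := fun s => if s ∈ Lev n then (F (ι (Finsupp.single s 1))) ^ 2 else 0
    have hg0 : ∀ s, 0 ≤ g s := fun s => by
      simp only [g]
      split_ifs
      · exact sq_nonneg _
      · exact le_rfl
    have hs : Summable g := by
      refine summable_of_sum_le (c := ‖F‖ ^ 2) hg0 (fun T => ?_)
      simp only [g]
      rw [← Finset.sum_filter]
      exact sum_sq_le h F n _ (fun t ht => (Finset.mem_filter.1 ht).2)
    refine hs.countable_support.mono ?_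
    rintro s ⟨hs1, hs2⟩
    rw [Function.mem_support]
    simp only [g]
    rw [if_pos hs1]
    exact pow_ne_zero 2 hs2
  refine (Set.countable_iUnion h1).mono ?_
  rintro s ⟨hs1, hs2⟩
  cases s with
  | root => exact (hs1 rfl).elim
  | child a b k => exact Set.mem_iUnion.2 ⟨depth b, ⟨a, b, k, rfl, rfl⟩, hs2⟩

/-- A level-one node on which finitely many functionals vanish together with all its
descendants. -/
theorem exists_good (h : Atomic Gen ι) (I : Finset (StrongDual ℝ X)) :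
    ∃ k : ℝ, ∀ F ∈ I, ∀ t, InChain (child root root k) t → F (ι (Finsupp.single t 1)) = 0 := by
  classical
  by_contra hcon
  push Not at hcon
  have hc : (⋃ F ∈ I, ⋃ t ∈ {s : Node | s ≠ root ∧ F (ι (Finsupp.single s 1)) ≠ 0},
      {k : ℝ | InChain (child root root k) t}).Countable := by
    refine (I.countable_toSet).biUnion (fun F _ => (countable_supp h F).biUnion (fun t _ => ?_))
    refine Set.Subsingleton.countable ?_
    intro k hk k' hk'
    rcases trichotomy hk hk' with h1 | h1 | h1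
    · cases h1
      rfl
    · exact h1.elim
    · exact h1.elim
  have huniv : (Set.univ : Set ℝ) ⊆ (⋃ F ∈ I,
      ⋃ t ∈ {s : Node | s ≠ root ∧ F (ι (Finsupp.single s 1)) ≠ 0},
      {k : ℝ | InChain (child root root k) t}) := by
    intro k _
    obtain ⟨F, hF, t, ht, hne⟩ := hcon k
    simp only [Set.mem_iUnion]
    refine ⟨F, hF, t, ⟨?_, hne⟩, ht⟩
    rintro rfl
    exact ht.elim
  exact Set.not_countable_univ (hc.mono huniv)

end Countable

section Positive

variable {X : Type} [NormedAddCommGroup X] [NormedSpace ℝ X] {ι : (Node →₀ ℝ) →ₗ[ℝ] X}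

theorem apply_eq_of_chain {F : StrongDual ℝ X} {k : ℝ}
    (hF : ∀ t, InChain (child root root k) t → F (ι (Finsupp.single t 1)) = 0)
    {c : Node} {v : Node →₀ ℝ} (hv : IsM c v) (hc : InChain (child root root k) c) :
    F (ι v) = F (ι (Finsupp.single root 1)) := by
  induction hv with
  | base => exact hc.elim
  | step c x k' v ε h hε ih =>
    have h1 : Finsupp.single (child c x k') ε = ε • Finsupp.single (child c x k') (1 : ℝ) := by
      rw [Finsupp.smul_single, smul_eq_mul, mul_one]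
    rw [map_add, map_add, h1, map_smul, map_smul, hF _ hc, smul_zero, add_zero]
    rcases hc with hc | hc
    · cases hc
      rw [h.eq_root]
    · exact ih hc

theorem mem_ball_of_gen (h : Atomic Gen ι) {v : Node →₀ ℝ} (hv : v ∈ Gen) :
    ι v ∈ closedBall (0 : X) 1 := by
  rw [mem_closedBall, dist_zero_right]
  exact h.norm_gen hv

theorem base_isAPEP (h : Atomic Gen ι) :
    IsAPEP (closedBall (0 : X) 1) (ι (Finsupp.single root 1)) := by
  have hroot : (Finsupp.single root (1 : ℝ)) ∈ Gen := Or.inl ⟨_, IsM.base⟩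
  set x₀ : X := ι (Finsupp.single root 1) with hx₀
  have hx₀n : ‖x₀‖ ≤ 1 := h.norm_gen hroot
  refine ⟨mem_ball_of_gen h hroot, fun W hW hxW => ?_⟩
  obtain ⟨I, δ, hδ, hIW⟩ := hW.exists_basic hxW.2
  obtain ⟨k, hk⟩ := exists_good h I
  -- the slicing functional
  obtain ⟨f, hf, hfn⟩ := h.exists_functional
    (Finsupp.lapply root + Finsupp.lapply (child root root k) : (Node →₀ ℝ) →ₗ[ℝ] ℝ)
    (C := 2) (by norm_num) (fun g hg => by
      have h1 := abs_apply_le hg root
      have h2 := abs_apply_le hg (child root root k)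
      have h3 := abs_add_le (g root) (g (child root root k))
      simp only [LinearMap.add_apply, Finsupp.lapply_apply]
      linarith)
  have hf' : ∀ v, f (ι v) = v root + v (child root root k) := fun v => by
    rw [hf]
    rfl
  have hf2 : ∀ x ∈ closedBall (0 : X) 1, f x ≤ 2 := by
    intro x hx
    have h1 := f.le_opNorm x
    have h2 : ‖x‖ ≤ 1 := by simpa using hx
    have h3 : ‖f‖ * ‖x‖ ≤ 2 * 1 := mul_le_mul hfn h2 (norm_nonneg _) (by norm_num)
    rw [Real.norm_eq_abs] at h1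
    have h4 := le_abs_self (f x)
    linarith
  let p : Node →₀ ℝ := Finsupp.single root 1 + Finsupp.single (child root root k) 1
  have hp : p ∈ Gen := Or.inl ⟨_, IsM.step root root k _ 1 IsM.base (Or.inl rfl)⟩
  have hfp : f (ι p) = 2 := by
    rw [hf']
    simp [p]
    norm_num
  have hsup : sSup (f '' closedBall (0 : X) 1) = 2 := by
    apply IsGreatest.csSup_eq
    refine ⟨⟨ι p, mem_ball_of_gen h hp, hfp⟩, ?_⟩
    rintro _ ⟨x, hx, rfl⟩
    exact hf2 x hx
  -- the key inequality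
  have key : ∀ F ∈ I, ∀ x ∈ closedBall (0 : X) 1, |F x - F x₀| ≤ 2 * ‖F‖ * (2 - f x) := by
    intro F hF
    have hgen : ∀ y : X, ‖y‖ ≤ 1 → f y ≤ 1 → |F y - F x₀| ≤ 2 * ‖F‖ * (2 - f y) := by
      intro y hy hfy
      have h1 : |F y - F x₀| ≤ ‖F‖ * ‖y - x₀‖ := by
        rw [← map_sub]
        exact F.le_opNorm _
      have h2 : ‖y - x₀‖ ≤ 2 := (norm_sub_le _ _).trans (by linarith)
      have h3 := mul_le_mul_of_nonneg_left h2 (norm_nonneg F)
      have h4 : 2 * ‖F‖ * 1 ≤ 2 * ‖F‖ * (2 - f y) :=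
        mul_le_mul_of_nonneg_left (by linarith) (by positivity)
      linarith
    have hconv : Convex ℝ {x : X | |F x - F x₀| ≤ 2 * ‖F‖ * (2 - f x)} := by
      intro x hx y hy a b ha hb hab
      change |F (a • x + b • y) - F x₀| ≤ 2 * ‖F‖ * (2 - f (a • x + b • y))
      replace hx : |F x - F x₀| ≤ 2 * ‖F‖ * (2 - f x) := hx
      replace hy : |F y - F x₀| ≤ 2 * ‖F‖ * (2 - f y) := hy
      rw [map_add, map_add, map_smul, map_smul, map_smul, map_smul]
      simp only [smul_eq_mul]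
      have h1 : a * F x + b * F y - F x₀ = a * (F x - F x₀) + b * (F y - F x₀) := by
        have : b = 1 - a := by linarith
        rw [this]
        ring
      have h2 : 2 * ‖F‖ * (2 - (a * f x + b * f y))
          = a * (2 * ‖F‖ * (2 - f x)) + b * (2 * ‖F‖ * (2 - f y)) := by
        have : b = 1 - a := by linarith
        rw [this]
        ring
      rw [h1, h2]
      refine (abs_add_le _ _).trans ?_
      rw [abs_mul, abs_mul, abs_of_nonneg ha, abs_of_nonneg hb]
      exact add_le_add (mul_le_mul_of_nonneg_left hx ha) (mul_le_mul_of_nonneg_left hy hb)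
    have hclosed : IsClosed {x : X | |F x - F x₀| ≤ 2 * ‖F‖ * (2 - f x)} :=
      isClosed_le ((F.continuous.sub continuous_const).abs)
        (continuous_const.mul (continuous_const.sub f.continuous))
    suffices hsub : closedBall (0 : X) 1 ⊆ {x : X | |F x - F x₀| ≤ 2 * ‖F‖ * (2 - f x)} from
      fun x hx => hsub hx
    refine h.ball_subset ⟨_, hroot⟩ hconv hclosed ?_ ?_
    · intro g hg
      change |F (ι g) - F x₀| ≤ 2 * ‖F‖ * (2 - f (ι g))
      rcases hg with ⟨c, hM⟩ | hFg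
      · obtain ⟨h1, h2, h3⟩ := hM.apply
        by_cases hin : InChain (child root root k) c
        · rcases h2 _ hin with h4 | h4
          · rw [apply_eq_of_chain (hk F hF) hM hin, hf', h1, h4, ← hx₀, sub_self, abs_zero]
            norm_num
          · apply hgen _ (h.norm_gen (Or.inl ⟨c, hM⟩))
            rw [hf', h1, h4]
            norm_num
        · apply hgen _ (h.norm_gen (Or.inl ⟨c, hM⟩))
          rw [hf', h1, h3 _ (by intro h; cases h) hin]
          norm_num
      · apply hgen _ (h.norm_gen (Or.inr hFg))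
        rw [hf', hFg.root_eq, zero_add]
        exact (le_abs_self _).trans (hFg.abs_le _)
    · intro g hg
      change |F (-ι g) - F x₀| ≤ 2 * ‖F‖ * (2 - f (-ι g))
      apply hgen
      · rw [norm_neg]
        exact h.norm_gen hg
      · rw [map_neg, hf']
        have h1 := abs_apply_le hg (child root root k)
        have h2 := neg_abs_le (g (child root root k))
        rcases hg with ⟨c, hM⟩ | hFg
        · rw [hM.apply.1]
          linarith
        · rw [hFg.root_eq]
          linarith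
  obtain ⟨α, hα, hαI⟩ := exists_pos_forall I (fun F α => 2 * ‖F‖ * α ≤ δ) (fun F _ => by
    refine ⟨δ / (2 * ‖F‖ + 1), by positivity, fun b hb hb' => ?_⟩
    have h1 : 2 * ‖F‖ * b ≤ 2 * ‖F‖ * (δ / (2 * ‖F‖ + 1)) :=
      mul_le_mul_of_nonneg_left hb' (by positivity)
    have h2 : 2 * ‖F‖ * (δ / (2 * ‖F‖ + 1)) ≤ (2 * ‖F‖ + 1) * (δ / (2 * ‖F‖ + 1)) :=
      mul_le_mul_of_nonneg_right (by linarith) (by positivity)
    rw [mul_div_cancel₀ _ (by positivity : (2 * ‖F‖ + 1 : ℝ) ≠ 0)] at h2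
    linarith)
  refine ⟨f, α, hα, ⟨ι p, mem_ball_of_gen h hp, ?_⟩, ?_⟩
  · rw [hsup, hfp]
    linarith
  · rintro x ⟨hx, hfx⟩
    rw [hsup] at hfx
    refine ⟨hx, hIW x (fun F hF => ?_)⟩
    refine (key F hF x hx).trans (le_trans ?_ (hαI F hF))
    exact mul_le_mul_of_nonneg_left (by linarith) (by positivity)

end Positive

section Negative

variable {X : Type} [NormedAddCommGroup X] [NormedSpace ℝ X] {ι : (Node →₀ ℝ) →ₗ[ℝ] X}
  {Z : Type*} [NormedAddCommGroup Z] [NormedSpace ℝ Z] {τ : X →L[ℝ] X →L[ℝ] Z}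

theorem norm_le_of_gen (h : Atomic Gen ι) (hτ : IsProjTensor τ) (Φ : StrongDual ℝ Z) {m : ℝ}
    (hm : 0 ≤ m) (hΦ : ∀ g ∈ Gen, ∀ g' ∈ Gen, |Φ (τ (ι g) (ι g'))| ≤ m) : ‖Φ‖ ≤ m := by
  have hroot : (Finsupp.single root (1 : ℝ)) ∈ Gen := Or.inl ⟨_, IsM.base⟩
  let T : X →L[ℝ] StrongDual ℝ X := (ContinuousLinearMap.compL ℝ X Z ℝ Φ).comp τ
  have hT : ∀ x y, T x y = Φ (τ x y) := fun x y => rfl
  have habs : ∀ F : StrongDual ℝ X, (∀ g ∈ Gen, |F (ι g)| ≤ m) →
      ∀ y ∈ closedBall (0 : X) 1, |F y| ≤ m := by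
    intro F hF
    have hconv : Convex ℝ {x : X | |F x| ≤ m} := by
      intro x hx y hy a b ha hb hab
      change |F (a • x + b • y)| ≤ m
      replace hx : |F x| ≤ m := hx
      replace hy : |F y| ≤ m := hy
      rw [map_add, map_smul, map_smul]
      simp only [smul_eq_mul]
      refine (abs_add_le _ _).trans ?_
      rw [abs_mul, abs_mul, abs_of_nonneg ha, abs_of_nonneg hb]
      have h1 := add_le_add (mul_le_mul_of_nonneg_left hx ha) (mul_le_mul_of_nonneg_left hy hb)
      have h2 : a * m + b * m = m := by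
        rw [← add_mul, hab, one_mul]
      linarith
    have hclosed : IsClosed {x : X | |F x| ≤ m} :=
      isClosed_le F.continuous.abs continuous_const
    suffices hsub : closedBall (0 : X) 1 ⊆ {x : X | |F x| ≤ m} from fun x hx => hsub hx
    refine h.ball_subset ⟨_, hroot⟩ hconv hclosed hF (fun g hg => ?_)
    change |F (-ι g)| ≤ m
    rw [map_neg, abs_neg]
    exact hF g hg
  have h1 : ∀ g ∈ Gen, ∀ y ∈ closedBall (0 : X) 1, |Φ (τ (ι g) y)| ≤ m := fun g hg =>
    habs (T (ι g)) (hΦ g hg)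
  have h2 : ∀ x ∈ closedBall (0 : X) 1, ∀ y ∈ closedBall (0 : X) 1, |Φ (τ x y)| ≤ m := by
    intro x hx y hy
    exact habs (T.flip y) (fun g hg => h1 g hg y hy) x hx
  have hTn : ‖T‖ ≤ m := by
    refine ContinuousLinearMap.opNorm_le_of_unit_norm hm (fun x hx => ?_)
    refine ContinuousLinearMap.opNorm_le_of_unit_norm hm (fun y hy => ?_)
    exact h2 x (by simp [hx]) y (by simp [hy])
  obtain ⟨Φ', hΦ', hn⟩ := hτ.lift T
  have heq : Φ' = Φ := by
    refine ContinuousLinearMap.ext_on hτ.dense_span ?_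
    rintro _ ⟨x, y, rfl⟩
    exact hΦ' x y
  rw [heq] at hn
  exact hn.trans hTn

theorem tensor_not_isAPEP (h : Atomic Gen ι) (hτ : IsProjTensor τ) {C : Set Z}
    (hC1 : ∀ g ∈ Gen, ∀ g' ∈ Gen, τ (ι g) (ι g') ∈ C)
    (hC2 : ∀ g ∈ Gen, ∀ g' ∈ Gen, -τ (ι g) (ι g') ∈ C)
    (hC3 : C ⊆ closedBall (0 : Z) 1) :
    ¬ IsAPEP C (τ (ι (Finsupp.single root 1)) (ι (Finsupp.single root 1))) := by
  have hroot : (Finsupp.single root (1 : ℝ)) ∈ Gen := Or.inl ⟨_, IsM.base⟩
  obtain ⟨e, he, _⟩ := h.exists_functional (Finsupp.lapply root : (Node →₀ ℝ) →ₗ[ℝ] ℝ)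
    (C := 1) (by norm_num) (fun g hg => abs_apply_le hg root)
  have he' : ∀ v, e (ι v) = v root := he
  obtain ⟨T, hT, _⟩ := h.exists_bilin BB span_Gen (fun g hg g' hg' => BB_le hg hg')
  obtain ⟨E, hE, _⟩ := hτ.lift ((ContinuousLinearMap.toSpanSingleton ℝ e).comp e)
  obtain ⟨T₁, hT₁, _⟩ := hτ.lift T
  have hE' : ∀ v w, E (τ (ι v) (ι w)) = v root * w root := fun v w => by
    rw [hE]
    change (e (ι v) • e) (ι w) = _
    change e (ι v) * e (ι w) = _
    rw [he', he']
  have hT' : ∀ v w, T₁ (τ (ι v) (ι w)) = BB v w := fun v w => by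
    rw [hT₁, hT]
  rintro ⟨hmem, hap⟩
  obtain ⟨Φ, α, hα, ⟨z₀, hz₀⟩, hsub⟩ := hap {z : Z | |E z - 1| < 1 / 2 ∧ |T₁ z| < 1 / 2}
    (weaklyOpen_two E T₁) ⟨hmem, by
      change |E (τ (ι (Finsupp.single root 1)) (ι (Finsupp.single root 1))) - 1| < 1 / 2 ∧
        |T₁ (τ (ι (Finsupp.single root 1)) (ι (Finsupp.single root 1)))| < 1 / 2
      rw [hE', hT', Finsupp.single_eq_same, BB_single, aa_root]
      norm_num⟩
  set M : ℝ := sSup (Φ '' C) with hM
  have hbdd : BddAbove (Φ '' C) := by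
    refine ⟨‖Φ‖, ?_⟩
    rintro _ ⟨z, hz, rfl⟩
    have h1 := Φ.le_opNorm z
    have h2 : ‖z‖ ≤ 1 := by simpa using hC3 hz
    have h3 := mul_le_mul_of_nonneg_left h2 (norm_nonneg Φ)
    have h4 := le_abs_self (Φ z)
    rw [Real.norm_eq_abs] at h1
    linarith
  -- some generator pair is in the slice up to sign
  have hex : ∃ g ∈ Gen, ∃ g' ∈ Gen, M - α < |Φ (τ (ι g) (ι g'))| := by
    by_contra hcon
    push Not at hcon
    have hm : 0 ≤ M - α := (abs_nonneg _).trans (hcon _ hroot _ hroot)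
    have hn := norm_le_of_gen h hτ Φ hm hcon
    have hle : M ≤ M - α := by
      refine csSup_le ⟨_, _, hmem, rfl⟩ ?_
      rintro _ ⟨z, hz, rfl⟩
      have h1 := Φ.le_opNorm z
      have h2 : ‖z‖ ≤ 1 := by simpa using hC3 hz
      have h3 := mul_le_mul_of_nonneg_left h2 (norm_nonneg Φ)
      have h4 := le_abs_self (Φ z)
      rw [Real.norm_eq_abs] at h1
      linarith
    linarith
  obtain ⟨g, hg, g', hg', hgg⟩ := hex
  have hroot01 : ∀ g ∈ Gen, g root = 1 ∨ g root = 0 := by
    rintro g (⟨c, hM⟩ | hF)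
    · exact Or.inl hM.apply.1
    · exact Or.inr hF.root_eq
  have hpos : 0 ≤ Φ (τ (ι g) (ι g')) := by
    by_contra hneg
    push Not at hneg
    rw [abs_of_neg hneg] at hgg
    have hin : -τ (ι g) (ι g') ∈ slice C Φ α := ⟨hC2 g hg g' hg', by
      rw [map_neg]
      exact hgg⟩
    have h1 := (hsub hin).2.1
    rw [map_neg, hE'] at h1
    rcases hroot01 g hg with h2 | h2 <;> rcases hroot01 g' hg' with h3 | h3 <;>
      rw [h2, h3] at h1 <;> norm_num at h1
  rw [abs_of_nonneg hpos] at hgg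
  have hin : τ (ι g) (ι g') ∈ slice C Φ α := ⟨hC1 g hg g' hg', hgg⟩
  obtain ⟨h1, h2⟩ := (hsub hin).2
  rw [hE'] at h1
  rw [hT'] at h2
  have hgM : ∃ c, IsM c g := by
    rcases hg with hg | hg
    · exact hg
    · exfalso
      rw [hg.root_eq] at h1
      norm_num at h1
  have hgM' : ∃ c, IsM c g' := by
    rcases hg' with hg' | hg'
    · exact hg'
    · exfalso
      rw [hg'.root_eq] at h1
      norm_num at h1
  obtain ⟨c, hc⟩ := hgM
  obtain ⟨c', hc'⟩ := hgM'
  have hnc : ¬ coup c c' := by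
    intro hcoup
    rw [(BB_MM hc hc').1 hcoup] at h2
    norm_num at h2
  -- the four extensions
  have hfour : ∀ ε ε' : ℝ, (ε = 1 ∨ ε = -1) → (ε' = 1 ∨ ε' = -1) →
      Φ (τ (ι (g + Finsupp.single (child c c' 0) ε))
        (ι (g' + Finsupp.single (child c' c 0) ε'))) ≤ M - α := by
    intro ε ε' hε hε'
    by_contra hlt
    push Not at hlt
    have hM1 : IsM (child c c' 0) (g + Finsupp.single (child c c' 0) ε) :=
      IsM.step c c' 0 g ε hc hε
    have hM2 : IsM (child c' c 0) (g' + Finsupp.single (child c' c 0) ε') :=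
      IsM.step c' c 0 g' ε' hc' hε'
    have hin' := (hsub (⟨hC1 _ (Or.inl ⟨_, hM1⟩) _ (Or.inl ⟨_, hM2⟩), hlt⟩ :
      _ ∈ slice C Φ α)).2.2
    rw [hT', (BB_MM hM1 hM2).1 (coup_child c c' 0 hnc)] at hin'
    norm_num at hin'
  have hsum : Φ (τ (ι g) (ι g')) = (Φ (τ (ι (g + Finsupp.single (child c c' 0) 1))
        (ι (g' + Finsupp.single (child c' c 0) 1)))
      + Φ (τ (ι (g + Finsupp.single (child c c' 0) 1))
        (ι (g' + Finsupp.single (child c' c 0) (-1))))
      + Φ (τ (ι (g + Finsupp.single (child c c' 0) (-1)))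
        (ι (g' + Finsupp.single (child c' c 0) 1)))
      + Φ (τ (ι (g + Finsupp.single (child c c' 0) (-1)))
        (ι (g' + Finsupp.single (child c' c 0) (-1))))) / 4 := by
    have hneg : ∀ s : Node, Finsupp.single s (-1 : ℝ) = -Finsupp.single s (1 : ℝ) := fun s => by
      rw [Finsupp.single_neg]
    rw [hneg, hneg]
    have hb : ∀ x y x' y' : X, Φ (τ (x + x') (y + y'))
        = Φ (τ x y) + Φ (τ x y') + Φ (τ x' y) + Φ (τ x' y') := fun x y x' y' => by
      have h3 : τ (x + x') (y + y') = τ x y + τ x y' + (τ x' y + τ x' y') := by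
        rw [map_add τ x x']
        change τ x (y + y') + τ x' (y + y') = _
        rw [map_add, map_add]
      rw [h3, map_add, map_add, map_add]
      ring
    have hn1 : ∀ x y : X, τ (-x) y = -τ x y := fun x y => by
      rw [map_neg τ x]
      rfl
    have hn2 : ∀ x y : X, τ x (-y) = -τ x y := fun x y => map_neg (τ x) y
    simp only [map_add ι, map_neg ι, hb, hn1, hn2, map_neg Φ]
    ring
  have a1 := hfour 1 1 (Or.inl rfl) (Or.inl rfl)
  have a2 := hfour 1 (-1) (Or.inl rfl) (Or.inr rfl)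
  have a3 := hfour (-1) 1 (Or.inr rfl) (Or.inl rfl)
  have a4 := hfour (-1) (-1) (Or.inr rfl) (Or.inr rfl)
  linarith

end Negative

end Pool.Agent.R579.Apep
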